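import Pool.Agent.H88.L.H914R2.KDefs2
import Pool.Agent.H88.L.H914R2.HodgeDefs

/-!
# The conjecture A in one codimension: definitions
-/

open CategoryTheory AlgebraicGeometry

universe u v

namespace Pool.Agent.H447

open Pool.Agent.H914 VarClass Obj WeilCohomology

variable {k : Type u} [Field k] {𝒱 : VarClass k} {ops : CycleOps 𝒱}

/-- The conjecture `A(X)` of Lefschetz type for the divisor `D` in the single codimension `j`:
every algebraic class of codimension `n - j`, where `n = dim X`, is the product of
`D ^ (n - 2 j)` with an algebraic class of codimension `j`. -/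
def LefschetzAIn (W : WeilCohomology.{u, v} ops) (X : 𝒱.Obj) (D : X.Cycles) (j : ℕ) : Prop :=
  ∀ z, X.IsCyc (X.dim - j) z →
    ∃ z', X.IsCyc j z' ∧ W.cl X (divPow ops D (X.dim - 2 * j) z') = W.cl X z

/-- The divisor `D × X - X × D` on `X × X`. -/
noncomputable def boxDiff (ops : CycleOps 𝒱) {X : 𝒱.Obj} (D : X.Cycles) : (X.prod X).Cycles :=
  ops.pull (fst X X) D - ops.pull (snd X X) D

/-- The class of the cycle `Δ_*(D)` on `X × X`, where `Δ` is the diagonal map, is the product of
`(D × X - X × D) ^ 2` with an algebraic class of codimension `n - 1`, where `n = dim X`. -/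
def DiagDivisible (W : WeilCohomology.{u, v} ops) (X : 𝒱.Obj) (D : X.Cycles) : Prop :=
  ∃ z, (X.prod X).IsCyc (X.dim - 1) z ∧
    W.cl (X.prod X) (divPow ops (boxDiff ops D) 2 z) = W.cl (X.prod X) (ops.push (diag X) D)

end Pool.Agent.H447
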