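import Pool.Agent.H88.L.H447R3.NumA
import Pool.Agent.H88.L.H914R2.HLam

/-!
# Uniqueness of the lowering operator
-/

open Polynomial Finset

namespace Pool.Agent.H447

open Pool.Agent.H914

variable {K : Type*} [Field K] [CharZero K] {V : Type*} [AddCommGroup V] [Module K V]
variable {gr : ℕ → Submodule K V} {n : ℕ} {L : Module.End K V}

omit [CharZero K] in
/-- Powers of `L` and an operator `y` whose second commutator with `L` vanishes. -/
lemma pow_mul_of_ad {L y c : Module.End K V} (hc : L * y - y * L = c) (hLc : L * c = c * L)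
    (k : ℕ) : L ^ (k + 1) * y = y * L ^ (k + 1) + ((k + 1 : ℕ) : K) • (c * L ^ k) := by
  induction k with
  | zero =>
    rw [zero_add, pow_one, pow_zero, mul_one, Nat.cast_one, one_smul, ← hc]
    abel
  | succ k ih =>
    have hcp : ∀ m : ℕ, L ^ m * c = c * L ^ m := fun m => by
      induction m with
      | zero => simp
      | succ m ihm => rw [pow_succ, mul_assoc, hLc, ← mul_assoc, ihm, mul_assoc]
    rw [pow_succ L (k + 1), mul_assoc, show L * y = y * L + c by rw [← hc]; abel, mul_add,
      ← mul_assoc, ih, add_mul, hcp, smul_mul_assoc, mul_assoc, mul_assoc, ← pow_succ]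
    rw [Nat.cast_succ (k + 1), add_smul, one_smul, add_assoc, ← pow_succ L k]

/-- An operator of degree `-2` whose second commutator with `L` vanishes is zero. -/
theorem eq_zero_of_ad_ad (h : DirectSum.IsInternal gr) (hL : IsHom gr 2 L)
    (hbd : ∀ i, 2 * n + 1 ≤ i → gr i = ⊥) (hHL : HardLef gr n L) {y : Module.End K V}
    (hy : IsHom gr (-2) y) (had : L * (L * y - y * L) = (L * y - y * L) * L) : y = 0 := by
  set c := L * y - y * L with hc
  have hcd : IsHom gr 0 c := by
    have h1 := hL.mul hy
    have h2 := hy.mul hL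
    rw [show (2 : ℤ) + -2 = 0 by ring] at h1
    rw [show (-2 : ℤ) + 2 = 0 by ring] at h2
    exact h1.sub h2
  have hcp : ∀ m : ℕ, L ^ m * c = c * L ^ m := fun m => by
    induction m with
    | zero => simp
    | succ m ihm => rw [pow_succ, mul_assoc, had, ← mul_assoc, ihm, mul_assoc]
  -- `y` kills the primitive elements
  have hprim : ∀ i ≤ n, ∀ a ∈ gr i, (L ^ (n - i + 1)) a = 0 → y a = 0 := by
    intro i hi a ha hp
    have hya := hy i a (by rw [grZ_natCast]; exact ha)
    by_cases h2 : 2 ≤ i
    · rw [show (i : ℤ) + -2 = ((i - 2 : ℕ) : ℤ) by omega, grZ_natCast] at hya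
      apply (hHL (i - 2) (by omega)).1 _ hya
      have h3 := congrArg (fun F => F a) (pow_mul_of_ad hc.symm had (n - i + 1))
      simp only [Module.End.mul_apply, LinearMap.add_apply, LinearMap.smul_apply, hp, map_zero,
        smul_zero, add_zero] at h3
      rw [show n - (i - 2) = n - i + 1 + 1 by omega, h3, pow_succ', Module.End.mul_apply, hp,
        map_zero, map_zero]
    · rw [grZ_of_neg (by omega)] at hya
      exact (Submodule.mem_bot _).1 hya
  -- `c` kills the primitive elements
  have hcprim : ∀ i ≤ n, ∀ a ∈ gr i, (L ^ (n - i + 1)) a = 0 → c a = 0 := by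
    intro i hi a ha hp
    have hca : c a ∈ gr i := by
      have := hcd.apply_mem (d := 0) ha
      simpa using this
    apply (hHL i hi).1 _ hca
    have h3 := congrArg (fun F => F a) (pow_mul_of_ad hc.symm had (n - i))
    simp only [Module.End.mul_apply, LinearMap.add_apply, LinearMap.smul_apply, hp, map_zero,
      zero_add, hprim i hi a ha hp] at h3
    have h4 : (((n - i + 1 : ℕ)) : K) ≠ 0 := Nat.cast_ne_zero.2 (Nat.succ_ne_zero (n - i))
    have h5 := (smul_eq_zero.1 h3.symm).resolve_left h4
    have h6 := congrArg (fun F => F a) (hcp (n - i))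
    simp only [Module.End.mul_apply] at h6
    rw [h6, h5]
  apply LinearMap.ext
  intro x
  rw [LinearMap.zero_apply]
  refine lef_induction' h hL hbd hHL (p := fun x => y x = 0) ?_ ?_ x
  · intro a b ha hb
    rw [map_add, ha, hb, add_zero]
  · intro i hi a ha hp j
    rcases Nat.eq_zero_or_pos j with rfl | hj
    · simpa using hprim i hi a ha hp
    · obtain ⟨j, rfl⟩ : ∃ j', j = j' + 1 := ⟨j - 1, by omega⟩
      have h3 := congrArg (fun F => F a) (pow_mul_of_ad hc.symm had j)
      simp only [Module.End.mul_apply, LinearMap.add_apply, LinearMap.smul_apply,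
        hprim i hi a ha hp, map_zero] at h3
      have h6 := congrArg (fun F => F a) (hcp j)
      simp only [Module.End.mul_apply, hcprim i hi a ha hp, map_zero] at h6
      rw [← h6, smul_zero, add_zero] at h3
      exact h3.symm

/-- Injectivity of the powers of the lowering operator. -/
lemma f_pow_inj [Module.Finite K V] {H e f : Module.End K V} (t : Sl2 H e f) {x : V} {c : ℕ}
    (hx : H x = (c : K) • x) (h0 : (f ^ c) x = 0) : x = 0 := by
  by_contra hx0
  have t' := t.neg_swap
  have h1 : (-H) x = -(c : K) • x := by rw [LinearMap.neg_apply, hx, neg_smul]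
  have h2 : (-e) x = 0 := by
    apply Sl2.f_eq_zero t' h1
    rw [pow_succ', Module.End.mul_apply]
    have : ((-f) ^ c) x = 0 := by
      rw [neg_pow, Module.End.mul_apply, h0, map_zero]
    rw [this, map_zero]
  have h3 := Sl2.e_pow_ne t' h2 h1 hx0 (le_refl c)
  apply h3
  rw [neg_pow, Module.End.mul_apply, h0, map_zero]

variable {R : ℤ → Module.End K V → Prop}

/-- If the lowering operator has the super traces of an element of the algebra, and there is no
nonzero numerically trivial operator of degree one in the algebra, then the lowering operator is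
in the algebra. -/
theorem lower_mem (hR : OpAlg gr R) (h : DirectSum.IsInternal gr)
    (hbd : ∀ i, 2 * n + 1 ≤ i → gr i = ⊥) (hL : R 1 L) (hHL : HardLef gr n L)
    {f : Module.End K V} (t : Sl2 (wt h n) L f) (hf : IsHom gr (-2) f) {z : Module.End K V}
    (hz : R (-1) z) (hzf : ∀ u, R 1 u → LinearMap.trace K V (par h * (z * u)) =
      LinearMap.trace K V (par h * (f * u)))
    (hN : ∀ u, R 1 u → (∀ y, R (-1) y → LinearMap.trace K V (par h * (u * y)) = 0) → u = 0) :
    z = f := by
  have hLh : IsHom gr 2 L := by simpa using hR.hom hL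
  have hLh' : IsHom gr (2 * 1) L := hR.hom hL
  have hzh : IsHom gr (-2) z := by simpa using hR.hom hz
  have hLL : R 2 (L * L) := hR.cast (hR.mul hL hL) (by ring)
  -- the second commutator
  have hff : L * (L * f) - (2 : K) • (L * f * L) + f * L * L = -((2 : K) • L) := by
    have h1 := t.ef
    have h2 := t.he
    have h3 : L * (L * f - f * L) - (L * f - f * L) * L = -((2 : K) • L) := by
      rw [h1]
      have : (2 : K) • L = 2 * L := by
        rw [ofNat_smul_eq_nsmul, nsmul_eq_mul]; rfl
      rw [this, ← h2]; abel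
    rw [← h3, two_smul]
    noncomm_ring
  set ν := L * (L * z) - (2 : K) • (L * z * L) + z * L * L + (2 : K) • L with hν
  have hνR : R 1 ν := by
    have h2 : ((2 : ℚ) : K) = 2 := by norm_num
    have e1 : R 1 (L * (L * z)) := hR.cast (hR.mul hL (hR.mul hL hz)) (by ring)
    have e2 : R 1 (((2 : ℚ) : K) • (L * z * L)) :=
      hR.smul 2 (hR.cast (hR.mul (hR.mul hL hz) hL) (by ring))
    have e3 : R 1 (z * L * L) := hR.cast (hR.mul (hR.mul hz hL) hL) (by ring)
    have e4 : R 1 (((2 : ℚ) : K) • L) := hR.smul 2 hL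
    rw [h2] at e2 e4
    exact hR.add (hR.add (hR.sub e1 e2) e3) e4
  have hS : ∀ w, IsHom gr (-2) w → ∀ y, IsHom gr (-2) y →
      LinearMap.trace K V (par h * ((L * (L * w) - (2 : K) • (L * w * L) + w * L * L) * y)) =
      LinearMap.trace K V (par h * (w * (y * (L * L) - (2 : K) • (L * y * L) + L * L * y))) := by
    intro w _ y _
    have e1 : LinearMap.trace K V (par h * (L * (L * w) * y)) =
        LinearMap.trace K V (par h * (w * (y * (L * L)))) := by
      rw [show L * (L * w) * y = (L * L) * (w * y) by noncomm_ring,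
        str_comm h (d := 2) (x := L * L) (hR.hom hLL)]
      congr 2
    have e2 : LinearMap.trace K V (par h * (L * w * L * y)) =
        LinearMap.trace K V (par h * (w * (L * y * L))) := by
      rw [show L * w * L * y = L * (w * L * y) by noncomm_ring, str_comm h hLh']
      congr 2
    have e3 : w * L * L * y = w * (L * L * y) := by noncomm_ring
    simp only [sub_mul, add_mul, mul_sub, mul_add, smul_mul_assoc, mul_smul_comm, map_sub,
      map_add, map_smul, e1, e2, e3]
  have hν0 : ν = 0 := by
    apply hN ν hνR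
    intro y hy
    have hyh : IsHom gr (-2) y := by simpa using hR.hom hy
    have hu : R 1 (y * (L * L) - (2 : K) • (L * y * L) + L * L * y) := by
      have h2 : ((2 : ℚ) : K) = 2 := by norm_num
      have e1 : R 1 (y * (L * L)) := hR.cast (hR.mul hy hLL) (by ring)
      have e2 : R 1 (((2 : ℚ) : K) • (L * y * L)) :=
        hR.smul 2 (hR.cast (hR.mul (hR.mul hL hy) hL) (by ring))
      have e3 : R 1 (L * L * y) := hR.cast (hR.mul hLL hy) (by ring)
      rw [h2] at e2
      exact hR.add (hR.sub e1 e2) e3
    rw [hν, add_mul, mul_add, map_add, hS z hzh y hyh, hzf _ hu, ← hS f hf y hyh, hff, neg_mul,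
      mul_neg, map_neg, neg_add_cancel]
  have hzf0 : z - f = 0 := by
    apply eq_zero_of_ad_ad h hLh hbd hHL (hzh.sub hf)
    have h1 : L * (L * (z - f) - (z - f) * L) - (L * (z - f) - (z - f) * L) * L = 0 := by
      have h2 : L * (L * (z - f) - (z - f) * L) - (L * (z - f) - (z - f) * L) * L =
          (L * (L * z) - (2 : K) • (L * z * L) + z * L * L) -
            (L * (L * f) - (2 : K) • (L * f * L) + f * L * L) := by
        rw [two_smul, two_smul]; noncomm_ring
      rw [h2, hff, sub_neg_eq_add]
      exact hν0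
    exact sub_eq_zero.1 h1
  exact sub_eq_zero.1 hzf0

/-- If `Λ` is in the algebra and the algebra has no nonzero numerically trivial operator of degree
zero, then it has no nonzero numerically trivial operator at all. -/
theorem eq_zero_of_num (hR : OpAlg gr R) (h : DirectSum.IsInternal gr)
    (hbd : ∀ i, 2 * n + 1 ≤ i → gr i = ⊥) (hL : R 1 L) (hHL : HardLef gr n L)
    {Φ : Module.End K V} (hΦ : R (-1) Φ) (hLam : IsLam gr n L Φ)
    (hN : ∀ u, R 0 u → (∀ y, R 0 y → LinearMap.trace K V (par h * (u * y)) = 0) → u = 0)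
    {d : ℤ} {u : Module.End K V} (hu : R d u)
    (hu0 : ∀ y, R (-d) y → LinearMap.trace K V (par h * (u * y)) = 0) : u = 0 := by
  have hLh : IsHom gr 2 L := by simpa using hR.hom hL
  -- products with elements of degree `-d` vanish
  have hau : ∀ a, R (-d) a → a * u = 0 := by
    intro a ha
    apply hN _ (hR.cast (hR.mul ha hu) (by ring))
    intro y hy
    rw [mul_assoc, str_comm h (hR.hom ha), mul_assoc]
    exact hu0 _ (hR.cast (hR.mul hy ha) (by ring))
  have hua : ∀ a, R (-d) a → u * a = 0 := by
    intro a ha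
    apply hN _ (hR.cast (hR.mul hu ha) (by ring))
    intro y hy
    rw [mul_assoc]
    exact hu0 _ (hR.cast (hR.mul ha hy) (by ring))
  apply gr_ext h
  intro i v hv
  rw [LinearMap.zero_apply]
  by_cases hi2 : 2 * n < i
  · rw [hbd i (by omega)] at hv
    rw [(Submodule.mem_bot _).1 hv, map_zero]
  have huv := (hR.hom hu) i v (by rw [grZ_natCast]; exact hv)
  by_cases hneg : (i : ℤ) + 2 * d < 0
  · rw [grZ_of_neg hneg] at huv
    exact (Submodule.mem_bot _).1 huv
  obtain ⟨j, hj⟩ := Int.eq_ofNat_of_zero_le (not_lt.1 hneg)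
  rw [hj] at huv
  change u v ∈ grZ gr ((j : ℕ) : ℤ) at huv
  rw [grZ_natCast] at huv
  by_cases hj2 : 2 * n < j
  · rw [hbd j (by omega)] at huv
    exact (Submodule.mem_bot _).1 huv
  by_cases hd : 0 ≤ d
  · obtain ⟨e, rfl⟩ := Int.eq_ofNat_of_zero_le hd
    have hje : j = i + 2 * e := by
      have : ((j : ℕ) : ℤ) = (i : ℤ) + 2 * (e : ℤ) := hj.symm
      omega
    have hPhi : R (-(e : ℤ)) (Φ ^ e) := hR.cast (hR.pow hΦ e) (by ring)
    by_cases hjn : n + e ≤ j
    · -- `Φ ^ e` is injective on `gr j`
      have h1 := congrArg (fun F => F v) (hau _ hPhi)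
      simp only [Module.End.mul_apply, LinearMap.zero_apply] at h1
      obtain ⟨q, rfl⟩ : ∃ q, j = n + q := ⟨j - n, by omega⟩
      obtain ⟨a, ha, hab⟩ := surj_pow hHL (by omega : q ≤ n) huv
      have h2 : (Φ ^ q) (u v) = a := by
        rw [← hab]; exact lam_pow_L_pow hLh hbd hHL hLam (by omega) ha
      have h3 : (Φ ^ q) (u v) = 0 := by
        rw [show q = (q - e) + e by omega, pow_add, Module.End.mul_apply, h1, map_zero]
      rw [← hab, ← h2, h3, map_zero]
    · -- `Φ ^ e` maps `gr j` onto `gr i`
      obtain ⟨m, hm⟩ : ∃ m, i = n - m ∧ m ≤ n ∧ e ≤ m := ⟨n - i, by omega, by omega, by omega⟩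
      obtain ⟨hm1, hm2, hm3⟩ := hm
      subst hm1
      have h1 : v = (Φ ^ e) ((Φ ^ (m - e)) ((L ^ m) v)) := by
        rw [← Module.End.mul_apply (Φ ^ e), ← pow_add, show e + (m - e) = m by omega]
        exact (lam_pow_L_pow hLh hbd hHL hLam hm2 hv).symm
      have h2 := congrArg (fun F => F ((Φ ^ (m - e)) ((L ^ m) v))) (hua _ hPhi)
      simp only [Module.End.mul_apply, LinearMap.zero_apply] at h2
      rw [← h1] at h2
      exact h2
  · obtain ⟨e, he⟩ := Int.eq_ofNat_of_zero_le (show 0 ≤ -d by omega)
    have hje : i = j + 2 * e := by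
      have h1 : ((j : ℕ) : ℤ) = (i : ℤ) + 2 * d := hj.symm
      have h2 : (e : ℤ) = -d := he.symm
      omega
    have hLe : R (-d) (L ^ e) := by
      rw [he]
      exact hR.cast (hR.pow hL e) (by simp)
    by_cases hjn : j + e ≤ n
    · -- `L ^ e` is injective on `gr j`
      have h1 := congrArg (fun F => F v) (hau _ hLe)
      simp only [Module.End.mul_apply, LinearMap.zero_apply] at h1
      apply (hHL j (by omega)).1 _ huv
      rw [show n - j = (n - j - e) + e by omega, pow_add, Module.End.mul_apply, h1, map_zero]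
    · obtain ⟨m, rfl⟩ : ∃ m, i = n + m := ⟨i - n, by omega⟩
      obtain ⟨a, ha, hab⟩ := surj_pow hHL (by omega : m ≤ n) hv
      have h1 : v = (L ^ e) ((L ^ (m - e)) a) := by
        rw [← Module.End.mul_apply (L ^ e), ← pow_add, show e + (m - e) = m by omega, hab]
      have h2 := congrArg (fun F => F ((L ^ (m - e)) a)) (hua _ hLe)
      simp only [Module.End.mul_apply, LinearMap.zero_apply] at h2
      rw [← h1] at h2
      exact h2

end Pool.Agent.H447
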