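import Pool.Agent.H88.L.H447R3.NumA

/-!
# Algebras of operators in which the weight operator is a sum of commutators
-/

open Polynomial Finset

namespace Pool.Agent.H447

open Pool.Agent.H914

variable {K : Type*} [Field K] [CharZero K] {V : Type*} [AddCommGroup V] [Module K V]
variable {gr : ℕ → Submodule K V} {n : ℕ} {L : Module.End K V}

omit [CharZero K] in
lemma trace_comm_sub (a b : Module.End K V) : LinearMap.trace K V (a * b - b * a) = 0 := by
  rw [map_sub, LinearMap.trace_mul_comm, sub_self]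

/-- The weighted sum of the dimensions. -/
lemma weighted_sum {n : ℕ} {r : ℕ → ℕ} (hle : ∀ m, 1 ≤ m → m ≤ n → r (n - m) ≤ r (n + m))
    (hsum : ∑ i ∈ range (2 * n + 1), ((i : ℤ) - n) * r i = 0) :
    ∀ m, m ≤ n → r (n - m) = r (n + m) := by
  have h1 : ∑ i ∈ range (2 * n + 1), ((i : ℤ) - n) * r i =
      ∑ i ∈ range n, ((i : ℤ) + 1) * ((r (n + (i + 1)) : ℤ) - r (n - (i + 1))) := by
    rw [show 2 * n + 1 = (n + 1) + n by ring, Finset.sum_range_add, Finset.sum_range_succ]
    have e1 : ∑ i ∈ range n, ((i : ℤ) - n) * r i =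
        ∑ i ∈ range n, -(((i : ℤ) + 1) * r (n - (i + 1))) := by
      rw [← Finset.sum_range_reflect]
      apply Finset.sum_congr rfl
      intro i hi
      rw [Finset.mem_range] at hi
      rw [show n - 1 - i = n - (i + 1) by omega]
      have : ((n - (i + 1) : ℕ) : ℤ) = (n : ℤ) - (i + 1) := by omega
      rw [this]; ring
    rw [e1, sub_self, zero_mul, add_zero, ← Finset.sum_add_distrib]
    apply Finset.sum_congr rfl
    intro i _
    rw [show n + 1 + i = n + (i + 1) by ring]
    push_cast
    ring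
  rw [h1] at hsum
  have h2 := (Finset.sum_eq_zero_iff_of_nonneg (by
    intro i hi
    rw [Finset.mem_range] at hi
    have := hle (i + 1) (by omega) (by omega)
    apply mul_nonneg (by positivity)
    have h3 : ((r (n - (i + 1)) : ℕ) : ℤ) ≤ ((r (n + (i + 1)) : ℕ) : ℤ) := by exact_mod_cast this
    linarith)).1 hsum
  intro m hm
  rcases Nat.eq_zero_or_pos m with rfl | hm0
  · simp
  · have h3 := h2 (m - 1) (Finset.mem_range.2 (by omega))
    rw [show m - 1 + 1 = m by omega] at h3
    rcases mul_eq_zero.1 h3 with h4 | h4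
    · have : (0 : ℤ) < ((m - 1 : ℕ) : ℤ) + 1 := by positivity
      omega
    · omega

/-- **The main lemma.** Let `A` be an algebra of operators on a space with a hard Lefschetz
structure, containing `L` and the projectors to the graded pieces. If the weight operator differs
by a nilpotent operator from a sum of commutators of elements of `A`, then the inverses of the
powers of `L` are in `A`. -/
theorem exists_inverse_of_comm [Module.Finite K V] (h : DirectSum.IsInternal gr)
    (hbd : ∀ i, 2 * n + 1 ≤ i → gr i = ⊥) (hLh : IsHom gr 2 L) (hHL : HardLef gr n L)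
    {A : Submodule K (Module.End K V)} (hA1 : 1 ∈ A)
    (hAm : ∀ x ∈ A, ∀ y ∈ A, x * y ∈ A) (hAL : L ∈ A) (hAP : ∀ i, proj h i ∈ A) {s : ℕ}
    {u v : Fin s → Module.End K V} (hu : ∀ i, u i ∈ A) (hv : ∀ i, v i ∈ A)
    {c : Module.End K V} (hc : ∑ i, (u i * v i - v i * u i) = wt h n + c)
    (hcn : IsNilpotent c) :
    ∀ m ≤ n, ∃ y ∈ A, proj h (n - m) * y = y ∧ y * proj h (n + m) = y ∧
      L ^ m * y = proj h (n + m) := by
  intro m hm
  have hAp : ∀ x ∈ A, ∀ r : ℕ, x ^ r ∈ A := by
    intro x hx r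
    induction r with
    | zero => simpa using hA1
    | succ r ih => rw [pow_succ]; exact hAm _ ih _ hx
  set e := proj h (n + m) with he
  have hee : e * e = e := proj_mul_proj h _
  set M : Submodule K (Module.End K V) := A.map (LinearMap.mulRight K e) with hM
  have hMe : ∀ x ∈ M, x * e = x := by
    rintro _ ⟨a, _, rfl⟩
    rw [LinearMap.mulRight_apply, mul_assoc, hee]
  have hMA : ∀ x ∈ M, x ∈ A := by
    rintro _ ⟨a, ha, rfl⟩
    exact hAm _ ha _ (hAP _)
  have hst : ∀ a ∈ A, ∀ x ∈ M, LinearMap.mulLeft K a x ∈ M := by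
    rintro a ha _ ⟨b, hb, rfl⟩
    refine ⟨a * b, hAm _ ha _ hb, ?_⟩
    rw [LinearMap.mulRight_apply, LinearMap.mulLeft_apply, LinearMap.mulRight_apply, mul_assoc]
  -- left multiplication
  set ρ : A → Module.End K M := fun a => (LinearMap.mulLeft K (a : Module.End K V)).restrict
    (hst a a.2) with hρ
  have hρa : ∀ (a : A) (x : M), ((ρ a x : M) : Module.End K V) = a * x := fun a x => rfl
  have hρm : ∀ (a b : A) (ab : A), (ab : Module.End K V) = a * b → ρ ab = ρ a * ρ b := by
    intro a b ab hab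
    apply LinearMap.ext
    intro x
    apply Subtype.ext
    rw [hρa, hab, Module.End.mul_apply, hρa, hρa, mul_assoc]
  -- the trace of the weight operator
  have hwA : wt h n ∈ A := by
    rw [wt, scal_eq_sum h hbd]
    exact Submodule.sum_mem _ (fun i _ => Submodule.smul_mem _ _ (hAP i))
  have hsA : ∑ i, (u i * v i - v i * u i) ∈ A :=
    Submodule.sum_mem _ (fun i _ => Submodule.sub_mem _ (hAm _ (hu i) _ (hv i))
      (hAm _ (hv i) _ (hu i)))
  have hcA : c ∈ A := by
    have : c = ∑ i, (u i * v i - v i * u i) - wt h n := by rw [hc, add_sub_cancel_left]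
    rw [this]
    exact Submodule.sub_mem _ hsA hwA
  have htr1 : LinearMap.trace K M (ρ ⟨_, hsA⟩) = 0 := by
    have h1 : ρ ⟨_, hsA⟩ = ∑ i, (ρ ⟨_, hu i⟩ * ρ ⟨_, hv i⟩ - ρ ⟨_, hv i⟩ * ρ ⟨_, hu i⟩) := by
      apply LinearMap.ext
      intro x
      apply Subtype.ext
      rw [hρa, LinearMap.sum_apply, AddSubmonoidClass.coe_finsetSum, Finset.sum_mul]
      apply Finset.sum_congr rfl
      intro i _
      rw [LinearMap.sub_apply, AddSubgroupClass.coe_sub, Module.End.mul_apply,
        Module.End.mul_apply, hρa, hρa, hρa, hρa, sub_mul, mul_assoc, mul_assoc]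
    rw [h1, map_sum]
    apply Finset.sum_eq_zero
    intro i _
    exact trace_comm_sub _ _
  have htr2 : LinearMap.trace K M (ρ ⟨c, hcA⟩) = 0 := by
    have h1 : IsNilpotent (ρ ⟨c, hcA⟩) := by
      obtain ⟨N, hN⟩ := hcn
      refine ⟨N, ?_⟩
      have h2 : ∀ (r : ℕ) (x : M), (((ρ ⟨c, hcA⟩ ^ r) x : M) : Module.End K V) = c ^ r * x := by
        intro r
        induction r with
        | zero => intro x; simp
        | succ r ih => intro x; rw [pow_succ', Module.End.mul_apply, hρa, ih, pow_succ', mul_assoc]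
      apply LinearMap.ext
      intro x
      apply Subtype.ext
      rw [h2, hN, zero_mul]
      rfl
    exact (LinearMap.isNilpotent_trace_of_isNilpotent h1).eq_zero
  set r : ℕ → ℕ := fun i => Module.finrank K (LinearMap.range (ρ ⟨_, hAP i⟩)) with hr
  have htr3 : LinearMap.trace K M (ρ ⟨_, hwA⟩) =
      ∑ i ∈ range (2 * n + 1), ((i : K) - n) * (r i : K) := by
    have h1 : ρ ⟨_, hwA⟩ = ∑ i ∈ range (2 * n + 1), ((i : K) - n) • ρ ⟨_, hAP i⟩ := by
      apply LinearMap.ext
      intro x
      apply Subtype.ext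
      rw [hρa, LinearMap.sum_apply, AddSubmonoidClass.coe_finsetSum]
      change wt h n * _ = _
      rw [wt, scal_eq_sum h hbd, Finset.sum_mul]
      apply Finset.sum_congr rfl
      intro i _
      rw [LinearMap.smul_apply, Submodule.coe_smul, hρa, smul_mul_assoc, node]
      push_cast
      rfl
    rw [h1, map_sum]
    apply Finset.sum_congr rfl
    intro i _
    rw [map_smul, trace_idem, smul_eq_mul]
    rw [← hρm _ _ ⟨_, hAP i⟩ (proj_mul_proj h i).symm]
  have hsum : ∑ i ∈ range (2 * n + 1), ((i : ℤ) - n) * r i = 0 := by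
    have h1 : ρ ⟨_, hsA⟩ = ρ ⟨_, hwA⟩ + ρ ⟨c, hcA⟩ := by
      apply LinearMap.ext
      intro x
      apply Subtype.ext
      rw [LinearMap.add_apply, Submodule.coe_add, hρa, hρa, hρa, ← add_mul]
      change (∑ i, (u i * v i - v i * u i)) * _ = _
      rw [hc]
    rw [h1, map_add, htr2, add_zero, htr3] at htr1
    have h2 : ((∑ i ∈ range (2 * n + 1), ((i : ℤ) - n) * r i : ℤ) : K) = 0 := by
      push_cast
      exact htr1
    exact_mod_cast h2
  -- injectivity of the powers of `L`
  have hmemr : ∀ i (x : M), x ∈ LinearMap.range (ρ ⟨_, hAP i⟩) ↔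
      proj h i * (x : Module.End K V) = x := by
    intro i x
    constructor
    · rintro ⟨y, rfl⟩
      rw [hρa]
      change proj h i * (proj h i * _) = proj h i * _
      rw [← mul_assoc, proj_mul_proj]
    · intro hx
      exact ⟨x, Subtype.ext hx⟩
  have hLpow : ∀ t, t ≤ n → ∀ x : Module.End K V, proj h (n - t) * x = x →
      proj h (n + t) * (L ^ t * x) = L ^ t * x := by
    intro t ht x hx
    apply LinearMap.ext
    intro a
    rw [Module.End.mul_apply, Module.End.mul_apply]
    have h1 : x a ∈ gr (n - t) := by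
      rw [← hx, Module.End.mul_apply]
      exact proj_mem h _ _
    have h2 := pow_L_mem hLh h1 t
    rw [show n - t + 2 * t = n + t by omega] at h2
    exact proj_same h h2
  have hLinj : ∀ t, t ≤ n → ∀ x : Module.End K V, proj h (n - t) * x = x →
      L ^ t * x = 0 → x = 0 := by
    intro t ht x hx h0
    apply LinearMap.ext
    intro a
    have h1 : x a ∈ gr (n - t) := by
      rw [← hx, Module.End.mul_apply]
      exact proj_mem h _ _
    apply (hHL (n - t) (by omega)).1 _ h1
    rw [show n - (n - t) = t by omega, ← Module.End.mul_apply, h0, LinearMap.zero_apply]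
  have hmap : ∀ t, t ≤ n → (LinearMap.range (ρ ⟨_, hAP (n - t)⟩)).map (ρ ⟨_, hAp L hAL t⟩) ≤
      LinearMap.range (ρ ⟨_, hAP (n + t)⟩) := by
    rintro t ht _ ⟨x, hx, rfl⟩
    rw [hmemr, hρa]
    exact hLpow t ht _ ((hmemr _ x).1 hx)
  have hfr : ∀ t, t ≤ n → Module.finrank K ((LinearMap.range (ρ ⟨_, hAP (n - t)⟩)).map
      (ρ ⟨_, hAp L hAL t⟩)) = r (n - t) := by
    intro t ht
    apply finrank_map_of_inj
    intro x hx h0
    apply Subtype.ext
    apply hLinj t ht _ ((hmemr _ x).1 hx)
    have := congrArg Subtype.val h0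
    rw [hρa] at this
    exact this
  have heq := weighted_sum (r := r) (fun t _ ht => by
    rw [← hfr t ht]
    exact Submodule.finrank_mono (hmap t ht)) hsum
  have htop : (LinearMap.range (ρ ⟨_, hAP (n - m)⟩)).map (ρ ⟨_, hAp L hAL m⟩) =
      LinearMap.range (ρ ⟨_, hAP (n + m)⟩) := by
    apply Submodule.eq_of_le_of_finrank_eq (hmap m hm)
    rw [hfr m hm, heq m hm]
  have heM : e ∈ M := ⟨1, hA1, by rw [LinearMap.mulRight_apply, one_mul]⟩
  have h1 : (⟨e, heM⟩ : M) ∈ LinearMap.range (ρ ⟨_, hAP (n + m)⟩) := (hmemr _ _).2 hee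
  rw [← htop] at h1
  obtain ⟨y, hy, hy'⟩ := h1
  refine ⟨y, hMA _ y.2, (hmemr _ y).1 hy, hMe _ y.2, ?_⟩
  have := congrArg Subtype.val hy'
  rw [hρa] at this
  exact this

end Pool.Agent.H447
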